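import Pool.Agent.NDR.StmtsG

/-!
Squad NDR (MP_b48657_ag), row BSE: a basis of the coordinate functions.
-/

set_option autoImplicit false

namespace Pool.Agent.NDR.H46

open Finset

theorem bse : BseStmt := by
  intro ι _ I A
  classical
  obtain ⟨Q, hQ⟩ : ∃ Q : Finset ι → Prop, ∀ T, Q T ↔
      ∀ c : ι → ℚ, (∀ a ∈ A, ∑ j ∈ T, c j * (a j : ℚ) = 0) → ∀ j ∈ T, c j = 0 :=
    ⟨_, fun _ => Iff.rfl⟩
  have hne : (I.powerset.filter Q).Nonempty := by
    refine ⟨∅, ?_⟩
    rw [Finset.mem_filter, hQ]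
    refine ⟨Finset.mem_powerset.2 (Finset.empty_subset _), ?_⟩
    intro c _ j hj
    exact absurd hj (Finset.notMem_empty j)
  obtain ⟨T, hT, hmax⟩ := Finset.exists_max_image _ Finset.card hne
  rw [Finset.mem_filter, Finset.mem_powerset, hQ] at hT
  refine ⟨T, hT.1, ?_, hT.2⟩
  intro i hi
  by_cases hiT : i ∈ T
  · refine ⟨fun j => if j = i then 1 else 0, ?_⟩
    intro a _
    simp [hiT]
  · have hnot : ¬ Q (insert i T) := by
      intro hq
      have h1 := hmax (insert i T) (by
        rw [Finset.mem_filter, Finset.mem_powerset]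
        exact ⟨Finset.insert_subset hi hT.1, hq⟩)
      rw [Finset.card_insert_of_notMem hiT] at h1
      omega
    rw [hQ] at hnot
    push Not at hnot
    obtain ⟨c, hc, j, hj, hcj⟩ := hnot
    have hci : c i ≠ 0 := by
      intro h0
      have h1 : ∀ a ∈ A, ∑ j ∈ T, c j * (a j : ℚ) = 0 := by
        intro a ha
        have h2 := hc a ha
        rw [Finset.sum_insert hiT, h0, zero_mul, zero_add] at h2
        exact h2
      rcases Finset.mem_insert.1 hj with rfl | hj
      · exact hcj h0
      · exact hcj (hT.2 c h1 j hj)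
    refine ⟨fun j => - (c j / c i), ?_⟩
    intro a ha
    have h2 := hc a ha
    rw [Finset.sum_insert hiT] at h2
    have h3 : ∑ j ∈ T, -(c j / c i) * (a j : ℚ) = - (∑ j ∈ T, c j * (a j : ℚ)) / c i := by
      rw [neg_div, Finset.sum_div, ← Finset.sum_neg_distrib]
      refine Finset.sum_congr rfl fun j _ => ?_
      ring
    rw [h3, eq_div_iff hci]
    linarith

end Pool.Agent.NDR.H46
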