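import Pool.Agent.NDR.StmtsC

/-!
Squad NDR (MP_b48657_ag), row CRG: the functional equation in log exponents.
-/

set_option autoImplicit false

namespace Pool.Agent.NDR.H46

open Finset Pool.Agent.Helper6_Mono Pool.Agent.Helper30_Simp

section basic

variable {σ : Type}

/-- integer exponents -/
def nz (n : Option σ →₀ ℕ) : Option σ → ℤ := fun v => ((n v : ℕ) : ℤ)

theorem one1_none (I : Finset σ) : one1 I none = 0 := by
  unfold one1
  rfl

theorem one1_mem {I : Finset σ} {i : σ} (h : i ∈ I) : one1 I (some i) = 1 := by
  unfold one1
  simp [h]

theorem one1_nonneg (I : Finset σ) (v : Option σ) : 0 ≤ one1 I v := by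
  cases v with
  | none => rw [one1_none]
  | some i =>
    unfold one1
    simp only [Option.elim_some]
    split_ifs <;> norm_num

theorem ex_inj : Function.Injective (ex : (σ →₀ ℕ) → Option σ → ℤ) := by
  intro α β h
  ext i
  have := congrFun h (some i)
  simp only [ex] at this
  exact_mod_cast this

theorem hat_ex {K : Type} [Field K] (f : MvPolynomial σ K) {α : σ →₀ ℕ} (h : α ∈ f.support) :
    hat f (ex α) = MvPolynomial.coeff α f := by
  classical
  unfold hat
  rw [Finsupp.finsetSum_apply, Finset.sum_eq_single α]
  · rw [Finsupp.single_eq_same]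
  · intro β _ hne
    rw [Finsupp.single_apply, if_neg]
    exact fun h => hne (ex_inj h)
  · intro h'
    exact absurd h h'

theorem sum_hatS {K : Type} [Field K] {R : Type} [CommRing R] [Algebra K R]
    (f : MvPolynomial σ K) {M : Type} [AddCommMonoid M] (φ : (Option σ → ℤ) → R → M) :
    ∑ a ∈ hatS f, φ a (hatC R f a) =
      ∑ α ∈ f.support, φ (ex α) (algebraMap K R (MvPolynomial.coeff α f)) := by
  classical
  unfold hatS
  rw [Finset.sum_image fun _ _ _ _ h => ex_inj h]
  refine Finset.sum_congr rfl fun α hα => ?_
  unfold hatC
  rw [hat_ex f hα]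

end basic

section lin

variable {σ : Type} {R : Type} [CommRing R]

/-- the linear map `X^n ↦ n + t` -/
noncomputable def TT (t : Option σ → ℤ) : MvPolynomial (Option σ) R →ₗ[R] (Option σ → ℤ) →₀ R :=
  (MvPolynomial.basisMonomials (Option σ) R).constr R fun n => Finsupp.single (nz n + t) 1

theorem TT_mono (t : Option σ → ℤ) (n : Option σ →₀ ℕ) (a : R) :
    TT t (MvPolynomial.monomial n a) = Finsupp.single (nz n + t) a := by
  have h1 : MvPolynomial.monomial n a =
      a • (MvPolynomial.basisMonomials (Option σ) R n) := by
    rw [MvPolynomial.coe_basisMonomials, MvPolynomial.smul_monomial, smul_eq_mul, mul_one]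
  rw [h1, map_smul]
  unfold TT
  rw [Module.Basis.constr_basis, Finsupp.smul_single, smul_eq_mul, mul_one]

theorem TT_supp (t : Option σ → ℤ) (P : MvPolynomial (Option σ) R) {m : Option σ → ℤ}
    (h : m ∈ (TT t P).support) : ∃ n ∈ P.support, m = nz n + t := by
  classical
  rw [P.as_sum, map_sum] at h
  obtain ⟨n, hn, hm⟩ := Finset.mem_biUnion.1 (Finsupp.support_finsetSum h)
  rw [TT_mono] at hm
  refine ⟨n, hn, ?_⟩
  have := Finsupp.support_single_subset hm
  exact Finset.mem_singleton.1 this

variable {τ : Type}

theorem opA_add (A : Finset (τ → ℤ)) (c : (τ → ℤ) → R) (v : τ) (h₁ h₂ : (τ → ℤ) →₀ R) :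
    opA A c v (h₁ + h₂) = opA A c v h₁ + opA A c v h₂ := by
  unfold opA
  rw [Finsupp.sum_add_index']
  · intro e
    simp
  · intro e a b
    rw [← Finset.sum_add_distrib]
    refine Finset.sum_congr rfl fun x _ => ?_
    rw [← Finsupp.single_add, mul_add]

theorem opT_add (t : τ → R) (v : τ) (h₁ h₂ : (τ → ℤ) →₀ R) :
    opT t v (h₁ + h₂) = opT t v h₁ + opT t v h₂ := by
  unfold opT
  rw [Finsupp.sum_add_index']
  · intro e
    simp
  · intro e a b
    rw [← Finsupp.single_add, mul_add]

theorem opB_add (A : Finset (τ → ℤ)) (c : (τ → ℤ) → R) (t : τ → R) (v : τ)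
    (h₁ h₂ : (τ → ℤ) →₀ R) : opB A c t v (h₁ + h₂) = opB A c t v h₁ + opB A c t v h₂ := by
  unfold opB
  rw [opA_add, opT_add]
  abel

theorem opB_single (A : Finset (τ → ℤ)) (c : (τ → ℤ) → R) (t : τ → R) (v : τ)
    (e : τ → ℤ) (d : R) : opB A c t v (Finsupp.single e d) =
      ∑ a ∈ A, Finsupp.single (e + a) (c a * ((a v : ℤ) : R) * d) +
        Finsupp.single e ((((e v : ℤ) : R) + t v) * d) := by
  unfold opB opA opT
  rw [Finsupp.sum_single_index, Finsupp.sum_single_index]
  · simp
  · simp

/-- exponents in `x` as exponents in `x, z` -/
noncomputable def emb (α : σ →₀ ℕ) : Option σ →₀ ℕ := Finsupp.mapDomain some α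

theorem emb_some (α : σ →₀ ℕ) (i : σ) : emb α (some i) = α i := by
  unfold emb
  exact Finsupp.mapDomain_apply (Option.some_injective σ) α i

theorem emb_none (α : σ →₀ ℕ) : emb α none = 0 := by
  unfold emb
  apply Finsupp.mapDomain_of_notMem_range
  rintro ⟨i, hi⟩
  exact Option.some_ne_none i hi

theorem inc_eq {K : Type} [Field K] [Algebra K R] (f : MvPolynomial σ K) :
    inc (MvPolynomial.map (algebraMap K R) f) = ∑ α ∈ f.support,
      MvPolynomial.monomial (emb α) (algebraMap K R (MvPolynomial.coeff α f)) := by
  unfold inc
  conv_lhs => rw [f.as_sum]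
  rw [map_sum, map_sum]
  refine Finset.sum_congr rfl fun α _ => ?_
  rw [MvPolynomial.map_monomial, MvPolynomial.rename_monomial]
  rfl

theorem key_some {K : Type} [Field K] [Algebra K R] (f : MvPolynomial σ K) (I : Finset σ) (s : R)
    {i : σ} (hi : i ∈ I) (P : MvPolynomial (Option σ) R) :
    TT (one1 I) (dE (inc (MvPolynomial.map (algebraMap K R) f)) i P) =
      opB (hatS f) (hatC R f) (shf s) (some i)
        (TT (one1 I - fun v => nz (Finsupp.single (some i) 1) v) P) := by
  classical
  induction P using MvPolynomial.induction_on' with
  | add p q hp hq =>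
    have h1 : dE (inc (MvPolynomial.map (algebraMap K R) f)) i (p + q) =
        dE (inc (MvPolynomial.map (algebraMap K R) f)) i p +
          dE (inc (MvPolynomial.map (algebraMap K R) f)) i q := by
      unfold dE
      rw [map_add]
      ring
    rw [h1, map_add, map_add, hp, hq, opB_add]
  | monomial n r =>
    rw [TT_mono, opB_single, sum_hatS f (fun a c => Finsupp.single
      (nz n + (one1 I - fun v => nz (Finsupp.single (some i) 1) v) + a) (c * ((a (some i) : ℤ) : R) * r))]
    unfold dE
    rw [inc_eq, map_sum, Finset.mul_sum, Finset.sum_mul, map_add, map_sum,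
      MvPolynomial.pderiv_monomial, TT_mono]
    rw [add_comm]
    congr 1
    · refine Finset.sum_congr rfl fun α _ => ?_
      rw [MvPolynomial.pderiv_monomial, MvPolynomial.X, MvPolynomial.monomial_mul,
        MvPolynomial.monomial_mul, TT_mono, emb_some, one_mul]
      by_cases h0 : α i = 0
      · rw [h0]
        have h2 : (((ex α (some i) : ℤ) : ℤ) : R) = 0 := by
          simp [ex, h0]
        rw [h2]
        simp
      · have h3 : (((ex α (some i) : ℤ) : ℤ) : R) = (α i : R) := by
          simp [ex]
        rw [h3]
        congr 1
        funext v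
        cases v with
        | none =>
          simp only [nz, ex, Pi.add_apply, Pi.sub_apply, Finsupp.coe_add, Finsupp.coe_tsub,
            emb_none]
          simp [one1_none]
          ring
        | some j =>
          simp only [nz, ex, Pi.add_apply, Pi.sub_apply, Finsupp.coe_add, Finsupp.coe_tsub,
            emb_some]
          by_cases hij : i = j
          · subst hij
            simp only [Finsupp.single_eq_same]
            rw [Finsupp.single_apply, if_neg (by simp)]
            have : 1 ≤ α i := Nat.one_le_iff_ne_zero.2 h0
            push_cast [Nat.cast_sub this]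
            ring
          · rw [Finsupp.single_apply, if_neg (by simp), Finsupp.single_apply,
              if_neg (by simpa using hij), Nat.sub_zero]
            push_cast
            ring
    · by_cases h0 : n (some i) = 0
      · have h1 : (nz n + (one1 I - fun v => nz (Finsupp.single (some i) 1) v)) (some i) = 0 := by
          simp only [nz, Pi.add_apply, Pi.sub_apply, one1_mem hi, h0, Finsupp.single_eq_same]
          norm_num
        rw [h1, h0]
        simp [shf]
      · have h1 : (nz n + (one1 I - fun v => nz (Finsupp.single (some i) 1) v)) (some i) =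
            ((n (some i) : ℕ) : ℤ) := by
          simp only [nz, Pi.add_apply, Pi.sub_apply, one1_mem hi, Finsupp.single_eq_same]
          push_cast
          ring
        rw [h1]
        have h2 : (((((n (some i) : ℕ) : ℤ) : R)) + shf s (some i)) * r =
            r * ((n (some i) : ℕ) : R) := by
          simp only [shf]
          push_cast
          ring
        rw [h2]
        congr 1
        funext v
        by_cases hv : v = some i
        · subst hv
          simp only [nz, Pi.add_apply, Pi.sub_apply, Finsupp.coe_tsub, Finsupp.single_eq_same]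
          have : 1 ≤ n (some i) := Nat.one_le_iff_ne_zero.2 h0
          push_cast [Nat.cast_sub this]
          ring
        · simp only [nz, Pi.add_apply, Pi.sub_apply, Finsupp.coe_tsub]
          rw [Finsupp.single_apply, if_neg (fun h => hv h.symm)]
          simp

theorem key_none {K : Type} [Field K] [Algebra K R] (f : MvPolynomial σ K) (I : Finset σ) (s : R)
    (P : MvPolynomial (Option σ) R) :
    TT (one1 I) (tE (inc (MvPolynomial.map (algebraMap K R) f)) s P) =
      opB (hatS f) (hatC R f) (shf s) none (TT (one1 I) P) := by
  classical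
  induction P using MvPolynomial.induction_on' with
  | add p q hp hq =>
    have h1 : tE (inc (MvPolynomial.map (algebraMap K R) f)) s (p + q) =
        tE (inc (MvPolynomial.map (algebraMap K R) f)) s p +
          tE (inc (MvPolynomial.map (algebraMap K R) f)) s q := by
      unfold tE
      rw [map_add]
      ring
    rw [h1, map_add, map_add, hp, hq, opB_add]
  | monomial n r =>
    rw [TT_mono, opB_single, sum_hatS f (fun a c => Finsupp.single
      (nz n + one1 I + a) (c * ((a none : ℤ) : R) * r))]
    unfold tE
    rw [inc_eq, Finset.mul_sum, Finset.sum_mul, map_add, map_sum, map_sub,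
      MvPolynomial.pderiv_monomial, MvPolynomial.C_mul_monomial, TT_mono]
    rw [add_comm]
    congr 1
    · refine Finset.sum_congr rfl fun α _ => ?_
      rw [MvPolynomial.X, MvPolynomial.monomial_mul, MvPolynomial.monomial_mul, TT_mono, one_mul]
      have h3 : (((ex α none : ℤ) : ℤ) : R) = 1 := by
        simp [ex]
      rw [h3, mul_one]
      congr 1
      funext v
      cases v with
      | none =>
        simp only [nz, ex, Pi.add_apply, Finsupp.coe_add, emb_none, Finsupp.single_eq_same]
        push_cast
        ring
      | some j =>
        simp only [nz, ex, Pi.add_apply, Finsupp.coe_add, emb_some]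
        rw [Finsupp.single_apply, if_neg (by simp)]
        push_cast
        ring
    · rw [MvPolynomial.X, MvPolynomial.monomial_mul, TT_mono, one_mul]
      have h1 : (nz n + one1 I) none = ((n none : ℕ) : ℤ) := by
        simp only [nz, Pi.add_apply, one1_none, add_zero]
      rw [h1]
      have h2 : (((((n none : ℕ) : ℤ) : R)) + shf s (none : Option σ)) * r =
          r * ((n none : ℕ) : R) - s * r := by
        simp only [shf]
        push_cast
        ring
      rw [h2, Finsupp.single_sub]
      congr 1
      by_cases h0 : n none = 0
      · rw [h0]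
        simp
      · congr 1
        congr 1
        funext v
        cases v with
        | none =>
          simp only [nz, Finsupp.coe_add, Pi.add_apply, Finsupp.coe_tsub, Pi.sub_apply,
            Finsupp.single_eq_same]
          have : 1 ≤ n none := Nat.one_le_iff_ne_zero.2 h0
          push_cast [Nat.cast_sub this]
          ring
        | some j =>
          simp only [nz, Finsupp.coe_add, Pi.add_apply, Finsupp.coe_tsub, Pi.sub_apply]
          rw [Finsupp.single_apply, if_neg (by simp)]
          simp

end lin

theorem crg (hcrm : CrmStmt) : CrgStmt := by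
  intro σ _ F b hF
  obtain ⟨D, hD⟩ := hcrm σ F b hF
  refine ⟨D, ?_⟩
  intro I K _ _ c L hL R _ _ _ _ s
  classical
  obtain ⟨X, h, heq, hX⟩ := hD I K c L hL R s
  refine ⟨TT (one1 I) X, fun v => v.elim (TT (one1 I) (h none)) fun i =>
    TT (one1 I - fun v => nz (Finsupp.single (some i) 1) v) (h (some i)), ?_, ?_, ?_⟩
  · have h1 := congrArg (TT (one1 I)) heq
    rw [map_add, map_add, map_sum, MvPolynomial.C_apply, TT_mono, key_none] at h1
    have h2 : nz (0 : Option σ →₀ ℕ) + one1 I = one1 I := by
      funext v
      simp [nz]
    rw [h2] at h1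
    rw [h1]
    unfold ih
    rw [Finset.sum_insertNone, add_comm]
    congr 1
    refine Finset.sum_congr rfl fun i hi => ?_
    exact key_some _ I s hi _
  · intro v hv m hm
    cases v with
    | none =>
      obtain ⟨n, -, rfl⟩ := TT_supp _ _ hm
      constructor
      · intro w
        have := one1_nonneg I w
        simp only [nz, Pi.add_apply]
        positivity
      · intro i hi _
        simp only [nz, Pi.add_apply, one1_mem hi]
        omega
    | some i =>
      have hi : i ∈ I := by
        unfold ih at hv
        rw [Finset.mem_insertNone] at hv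
        exact hv i rfl
      obtain ⟨n, -, rfl⟩ := TT_supp _ _ hm
      constructor
      · intro w
        simp only [nz, Pi.add_apply, Pi.sub_apply]
        by_cases hw : w = some i
        · subst hw
          rw [one1_mem hi, Finsupp.single_eq_same]
          omega
        · have := one1_nonneg I w
          rw [Finsupp.single_apply, if_neg (fun h => hw h.symm)]
          omega
      · intro j hj hne
        simp only [nz, Pi.add_apply, Pi.sub_apply, one1_mem hj]
        rw [Finsupp.single_apply, if_neg (fun h => hne h.symm)]
        omega
  · intro m hm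
    obtain ⟨n, hn, rfl⟩ := TT_supp _ _ hm
    rw [add_sub_cancel_right]
    exact hX n hn

end Pool.Agent.NDR.H46
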